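import Pool.Agent.SGL.StmtsU

/-!
# Squad SGL (MP_41797f_co), row EBL: the edges of the bottom slice
-/

set_option autoImplicit false

noncomputable section

namespace Pool.Agent.SGL.H85

open Pool.Agent.SGE Pool.Agent.SGP Pool.Agent.SGY Pool.Agent.SGD Pool.Agent.SGL

/-- Row EBL. -/
theorem ebl : EblStmt := by
  intro V a c F K R k D x y π s ρ f hE haR hK hρ hf ha
  -- the positions
  have hP0 : ps c a k π 0 = a := by unfold ps; rw [if_pos rfl]
  have hPk : ∀ i, 1 ≤ i → i ≤ k → ps c a k π i = π i := by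
    intro i h1 h2
    unfold ps
    rw [if_neg (by omega), if_pos h2]
  have hPl : ps c a k π (k + 1) = c := by
    unfold ps
    rw [if_neg (by omega), if_neg (by omega)]
  have hmem : ∀ i, 1 ≤ i → i ≤ k + 1 → ps c a k π i ∈ K ∪ {c} := by
    intro i h1 h2
    rcases Nat.lt_or_ge k i with h | h
    · have : i = k + 1 := by omega
      rw [this, hPl]
      exact Or.inr rfl
    · rw [hPk i h1 h]
      exact Or.inl (hE.pin i h1 h)
  have hx : ∀ i j, 1 ≤ i → i < j → j ≤ k + 1 → x (ps c a k π j) < x (ps c a k π i) := by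
    intro i j h1 h2 h3
    rcases Nat.lt_or_ge k j with h | h
    · have : j = k + 1 := by omega
      rw [this, hPl, hPk i h1 (by omega)]
      exact hE.xc _ (hE.pin i h1 (by omega))
    · rw [hPk i h1 (by omega), hPk j (by omega) h]
      exact hE.xd i j h1 h2 h
  have hr : ∀ i j, 1 ≤ i → i < j → j ≤ k + 1 → ρ (ps c a k π j) < ρ (ps c a k π i) := by
    intro i j h1 h2 h3
    exact (hρ _ (hmem j (by omega) h3) _ (hmem i h1 (by omega))).2 (hx i j h1 h2 h3)
  have hord : ∀ i j, 1 ≤ i → i ≤ k + 1 → 1 ≤ j → j ≤ k + 1 →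
      ρ (ps c a k π i) < ρ (ps c a k π j) → j < i := by
    intro i j h1 h2 h3 h4 h
    by_contra hcon
    rcases Nat.lt_or_ge i j with h5 | h5
    · exact absurd (hr i j h1 h5 h4) (by omega)
    · have : i = j := by omega
      rw [this] at h
      exact lt_irrefl _ h
  have hsur : ∀ z, z ∈ R → s z = 0 → ∃ l, 1 ≤ l ∧ l ≤ k + 1 ∧ ps c a k π l = z := by
    intro z hz hs
    rcases (hK z).2 ⟨hz, hs⟩ with h | h
    · obtain ⟨i, h1, h2, h3⟩ := hE.psu z h
      exact ⟨i, h1, by omega, by rw [hPk i h1 h2, h3]⟩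
    · exact ⟨k + 1, by omega, le_rfl, by rw [hPl]; exact h.symm⟩
  have hna : ∀ i, 1 ≤ i → i ≤ k + 1 → ps c a k π i ≠ a := by
    intro i h1 h2 h
    apply haR
    rw [← h]
    exact ((hK _).1 (hmem i h1 h2)).1
  refine ⟨?_, ?_, ?_, ?_⟩
  · rintro p q ⟨i, j, hij, hj, -, rfl, rfl⟩
    exact (hK _).1 (hmem j (by omega) hj)
  · rintro p q ⟨i, j, hij, hj, -, rfl, rfl⟩
    rcases Nat.eq_zero_or_pos i with h | h
    · left
      rw [h, hP0]
    · right
      have h1 := (hK _).1 (hmem i h (by omega))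
      exact ⟨hna i h (by omega), h1.1, h1.2, hr i j h hij hj⟩
  · rintro p q ⟨i, j, hij, hj, hEd, rfl, rfl⟩ z hz hsz hpz hzq
    obtain ⟨l, hl1, hl2, rfl⟩ := hsur z hz hsz
    have hlj : l < j := hord j l (by omega) hj hl1 hl2 hpz
    rcases Nat.eq_zero_or_pos i with h | h
    · subst h
      rw [hP0]
      exact ha _ (hmem j (by omega) hj) _ (hmem l hl1 hl2) (hE.l0 l j hl1 hlj hj hEd)
    · have hil : i < l := by
        rcases hzq with h1 | h1
        · exact absurd h1 (hna i h (by omega))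
        · exact hord l i hl1 hl2 h (by omega) h1
      rw [hf _ (hmem j (by omega) hj) _ (hmem i h (by omega)) _ (hmem l hl1 hl2)]
      exact hE.lo i l j h hil hlj hj hEd
  · rintro p q p' q' ⟨i, j, hij, hj, hEd, rfl, rfl⟩ ⟨i', j', hij', hj', hEd', rfl, rfl⟩ hpp hpq
    have hjj : j' < j := hord j j' (by omega) hj (by omega) hj' hpp
    rcases Nat.eq_zero_or_pos i with h | h
    · left
      rw [h, hP0]
    · right
      have hij2 : i < j' := by
        rcases hpq with h1 | h1
        · exact absurd h1 (hna i h (by omega))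
        · exact hord j' i (by omega) hj' h (by omega) h1
      have hii : i ≤ i' := by
        by_contra hcon
        have h1 := (hEd' i (by omega) hij2).2 (by omega)
        have h2 := (hEd j' hij2 hjj).1 h
        omega
      refine ⟨hna i' (by omega) (by omega), ?_⟩
      rcases Nat.eq_or_lt_of_le hii with h1 | h1
      · rw [h1]
      · exact (hr i i' h h1 (by omega)).le

end Pool.Agent.SGL.H85
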